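import Pool.Agent.N184.KL.Final

/-!
# Weight-monodromy for rigid-analytic varieties with projective reduction: the outer graded pieces
-/

namespace Pool.Agent.Results.MP_0f76a4_ag.OuterWeightsRigid

universe u v

open Module Pool.Agent.Y143 Pool.Agent.N184.KL Pool.Agent.N184.WM

variable {Ω : Type u} [Field Ω] [CharZero Ω] {Γ : Type} {n q : ℕ}

/-- Let `X` be a rigid-analytic variety of dimension `n` over a `p`-adic field whose residue field has
`q` elements, with a strictly semistable formal model with projective special fibre, given by the
cohomology of the strata of the special fibre and the weight spectral sequence; no hard Lefschetz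
theorem for `X` is assumed. Suppose that `f + 1` is in the range for `i`:

* `f + 1 ≥ min (i, 2 n - i)`,
* or `i = n` and `f + 1 ≥ n - 1`,
* or `i = n`, `f + 1 ≥ n - 2`, and the classes in `H^2` of the `(n - 2)`-fold intersections of
  components are algebraic.

Then for `|j| ≥ f` all eigenvalues of the geometric Frobenius on the graded piece `gr_j` of the
monodromy filtration of `H^i` are `q`-Weil numbers of weight `i + j`. -/
theorem result (X : SemistableModel.{u, v} Ω Γ n q) (A : DivisorClasses X.toSpecialFibre)
    (i f : ℕ) (h : InRange A i (f + 1)) (hN : IsTwisted q (X.actV i X.frob) (X.N i)) (j : ℤ)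
    (hj : (f : ℤ) ≤ |j|) : IsPureAt q i (X.actV i X.frob) (X.N i) j :=
  pure_outer X A i f h hN j hj

end Pool.Agent.Results.MP_0f76a4_ag.OuterWeightsRigid
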